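import Pool.Agent.W_7d29a1_F.LuckA
import Pool.Agent.W_7d29a1_F.CoreD4

/-!
TRACK G, row 622, section 2: theta moments over cell sequences at the fixed times `i n`. helper82.

Cells `[k (w + 1), (k + 1) (w + 1))` in the frame of the integer displacement `d` per slab of time `n`.
-/

namespace Pool.Agent.W_7d29a1_h82g

open Pool.Agent.W_7d29a1_F MeasureTheory ProbabilityTheory Filter Topology

noncomputable section

variable {μ : Measure ℝ} {s : ℝ}

/-- The largest weight from a site of the cell `0` at the time `0` to the cell `k` (relative to `d`) at the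
time `n`. -/
def Gc (μ : Measure ℝ) (s : ℝ) (w n : ℕ) (d k : ℤ) (η : Env) : ℝ :=
  (Finset.range (w + 1)).sup' ⟨0, by simp⟩ fun i =>
    ∑ l ∈ Finset.range (w + 1), W μ s η (0, (i : ℤ)) n (d + k * (w + 1) + l - i)

/-- The largest weight from a site of the cell `k` at the time `0` to `(M n, M d)` (the environment is
translated so that the cell `k` becomes the cell `0`). -/
def Zc (μ : Measure ℝ) (s : ℝ) (w n : ℕ) (d : ℤ) (M : ℕ) (k : ℤ) (η : Env) : ℝ :=
  (Finset.range (w + 1)).sup' ⟨0, by simp⟩ fun i =>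
    W μ s η (0, (i : ℤ)) (M * n) (M * d - k * (w + 1) - i)

theorem Gc_nonneg (w n : ℕ) (d k : ℤ) (η : Env) : 0 ≤ Gc μ s w n d k η := by
  refine le_trans ?_ (Finset.le_sup' _ (b := 0) (by simp))
  exact Finset.sum_nonneg fun l _ => W_nonneg _ _ _ _

theorem Zc_nonneg (w n : ℕ) (d : ℤ) (M : ℕ) (k : ℤ) (η : Env) : 0 ≤ Zc μ s w n d M k η := by
  refine le_trans ?_ (Finset.le_sup' _ (b := 0) (by simp))
  exact W_nonneg _ _ _ _

theorem le_Gc (w n : ℕ) (d k : ℤ) (η : Env) {i : ℕ} (hi : i < w + 1) :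
    ∑ l ∈ Finset.range (w + 1), W μ s η (0, (i : ℤ)) n (d + k * (w + 1) + l - i) ≤
      Gc μ s w n d k η :=
  Finset.le_sup' (f := fun i : ℕ => ∑ l ∈ Finset.range (w + 1),
    W μ s η (0, (i : ℤ)) n (d + k * (w + 1) + l - i)) (Finset.mem_range.2 hi)

theorem le_Zc (w n : ℕ) (d : ℤ) (M : ℕ) (k : ℤ) (η : Env) {i : ℕ} (hi : i < w + 1) :
    W μ s η (0, (i : ℤ)) (M * n) (M * d - k * (w + 1) - i) ≤ Zc μ s w n d M k η :=
  Finset.le_sup' (f := fun i : ℕ => W μ s η (0, (i : ℤ)) (M * n) (M * d - k * (w + 1) - i))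
    (Finset.mem_range.2 hi)

theorem measurable_Gc (w n : ℕ) (d k : ℤ) : Measurable fun η : Env => Gc μ s w n d k η := by
  unfold Gc
  refine Finset.measurable_range_sup'' (fun i _ => ?_)
  exact Finset.measurable_sum _ fun l _ => measurable_W _ _ _

theorem measurable_Zc (w n : ℕ) (d : ℤ) (M : ℕ) (k : ℤ) :
    Measurable fun η : Env => Zc μ s w n d M k η := by
  unfold Zc
  exact Finset.measurable_range_sup'' (fun i _ => measurable_W _ _ _)

theorem Gc_dep (w n : ℕ) (d k : ℤ) : DependsOn (fun η : Env => Gc μ s w n d k η) (rows 0 n) := by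
  intro η η' h
  refine Finset.sup'_congr _ rfl fun i _ => Finset.sum_congr rfl fun l _ => ?_
  refine W_dep_rows (μ := μ) (s := s) (0, (i : ℤ)) n _ fun p hp => h p ?_
  simpa using hp

theorem Zc_dep (w n : ℕ) (d : ℤ) (M : ℕ) (k : ℤ) :
    DependsOn (fun η : Env => Zc μ s w n d M k η) (rows 0 (M * n)) := by
  intro η η' h
  refine Finset.sup'_congr _ rfl fun i _ => ?_
  refine W_dep_rows (μ := μ) (s := s) (0, (i : ℤ)) (M * n) _ fun p hp => h p ?_
  simpa using hp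

/-- The recursion over the slabs. -/
theorem Zc_succ (w n : ℕ) (d : ℤ) (M : ℕ) (k : ℤ) (η : Env) {R : ℕ} (hR : |d| + n + w + 1 ≤ R) :
    Zc μ s w n d (M + 1) k η ≤ ∑ D ∈ Finset.Icc (-(R : ℤ)) R,
      Gc μ s w n d D η * Zc μ s w n d M (k + D) (sh ((n : ℤ), d + D * (w + 1)) η) := by
  classical
  refine Finset.sup'_le _ _ fun i hi => ?_
  have hi' := Finset.mem_range.1 hi
  have hw : (0 : ℤ) < (w : ℤ) + 1 := by positivity
  rw [show (M + 1) * n = n + M * n by ring, W_add η (0, (i : ℤ)) n (M * n) _]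
  -- the position `i + y` in terms of cells
  have h1 : ∀ y ∈ Finset.Icc (0 : ℤ) n, W μ s η (0, (i : ℤ)) n y *
      W μ s η (((0 : ℤ), (i : ℤ)).1 + n, ((0 : ℤ), (i : ℤ)).2 + y) (M * n)
        (((M + 1 : ℕ) : ℤ) * d - k * (w + 1) - i - y) ≤
      ∑ D ∈ Finset.Icc (-(R : ℤ)) R, ∑ l ∈ Finset.range (w + 1),
        if y = d + D * (w + 1) + l - i then W μ s η (0, (i : ℤ)) n (d + D * (w + 1) + l - i) *
          Zc μ s w n d M (k + D) (sh ((n : ℤ), d + D * (w + 1)) η) else 0 := by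
    intro y hy
    have hy' := Finset.mem_Icc.1 hy
    set D : ℤ := (y + i - d) / (w + 1) with hD
    set l : ℤ := (y + i - d) % (w + 1) with hl
    have h2 : (w + 1) * D + l = y + i - d := Int.mul_ediv_add_emod _ _
    have h3 : 0 ≤ l := Int.emod_nonneg _ hw.ne'
    have h4 : l < w + 1 := Int.emod_lt_of_pos _ hw
    have hDR : D ∈ Finset.Icc (-(R : ℤ)) R := by
      rw [Finset.mem_Icc]
      have h5 := abs_le.1 (le_refl |d|)
      constructor
      · rw [hD, Int.le_ediv_iff_mul_le hw]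
        have : (-(R : ℤ)) * (w + 1) ≤ -(R : ℤ) := by nlinarith
        have h6 : (i : ℤ) ≤ w := by omega
        linarith [h5.2, neg_abs_le d, le_abs_self d]
      · refine Int.lt_add_one_iff.1 ((Int.ediv_lt_iff_lt_mul hw).2 ?_)
        have : (R : ℤ) + 1 ≤ (R + 1) * ((w : ℤ) + 1) := by nlinarith
        have h6 : (i : ℤ) ≤ w := by omega
        linarith [neg_abs_le d, le_abs_self d]
    obtain ⟨l', hl'⟩ : ∃ l' : ℕ, l = l' := ⟨l.toNat, by rw [Int.toNat_of_nonneg h3]⟩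
    have h7 : y = d + D * (w + 1) + (l' : ℤ) - i := by
      rw [← hl']
      linarith [mul_comm ((w : ℤ) + 1) D]
    have h8 : ∀ D' ∈ Finset.Icc (-(R : ℤ)) R, 0 ≤ ∑ l ∈ Finset.range (w + 1),
        if y = d + D' * (w + 1) + (l : ℤ) - i then W μ s η (0, (i : ℤ)) n
          (d + D' * (w + 1) + l - i) * Zc μ s w n d M (k + D') (sh ((n : ℤ), d + D' * (w + 1)) η)
          else 0 := by
      intro D' _
      refine Finset.sum_nonneg fun l _ => ?_
      split_ifs
      · exact mul_nonneg (W_nonneg _ _ _ _) (Zc_nonneg _ _ _ _ _ _)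
      · exact le_rfl
    refine le_trans ?_ (Finset.single_le_sum h8 hDR)
    have h9 : ∀ l ∈ Finset.range (w + 1), 0 ≤ (if y = d + D * (w + 1) + (l : ℤ) - i then
        W μ s η (0, (i : ℤ)) n (d + D * (w + 1) + l - i) *
          Zc μ s w n d M (k + D) (sh ((n : ℤ), d + D * (w + 1)) η) else 0) := by
      intro l _
      split_ifs
      · exact mul_nonneg (W_nonneg _ _ _ _) (Zc_nonneg _ _ _ _ _ _)
      · exact le_rfl
    refine le_trans ?_ (Finset.single_le_sum h9 (Finset.mem_range.2 (by omega : l' < w + 1)))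
    rw [if_pos h7, ← h7]
    refine mul_le_mul_of_nonneg_left ?_ (W_nonneg _ _ _ _)
    refine le_trans (le_of_eq ?_) (le_Zc w n d M (k + D) (sh ((n : ℤ), d + D * (w + 1)) η)
      (i := l') (by omega))
    rw [W_sh]
    congr 1
    · ext
      · simp
      · simp only [Prod.snd_add]
        rw [h7]
        ring
    · rw [h7]
      push_cast
      ring
  refine (Finset.sum_le_sum h1).trans ?_
  rw [Finset.sum_comm]
  refine Finset.sum_le_sum fun D _ => ?_
  have h10 : ∑ l ∈ Finset.range (w + 1), W μ s η (0, (i : ℤ)) n (d + D * (w + 1) + l - i) *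
      Zc μ s w n d M (k + D) (sh ((n : ℤ), d + D * (w + 1)) η) ≤
      Gc μ s w n d D η * Zc μ s w n d M (k + D) (sh ((n : ℤ), d + D * (w + 1)) η) := by
    rw [← Finset.sum_mul]
    exact mul_le_mul_of_nonneg_right (le_Gc w n d D η hi') (Zc_nonneg _ _ _ _ _ _)
  refine le_trans ?_ h10
  rw [Finset.sum_comm]
  refine Finset.sum_le_sum fun l _ => ?_
  rw [Finset.sum_ite_eq' (Finset.Icc (0 : ℤ) n) (d + D * (w + 1) + (l : ℤ) - i)]
  split_ifs
  · exact le_rfl
  · exact mul_nonneg (W_nonneg _ _ _ _) (Zc_nonneg _ _ _ _ _ _)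

theorem Zc_zero (w n : ℕ) (d k : ℤ) (η : Env) : Zc μ s w n d 0 k η ≤ if k = 0 then 1 else 0 := by
  refine Finset.sup'_le _ _ fun i hi => ?_
  have hi' := Finset.mem_range.1 hi
  have hW : ∀ y : ℤ, W μ s η (0, (i : ℤ)) 0 y = if y = 0 then 1 else 0 := by
    intro y
    unfold W WR
    simp only [Zr]
    split_ifs with h
    · rw [h]
      simp
    · simp
  rw [show 0 * n = 0 by ring, hW]
  split_ifs with h1 h2 h2
  · exact le_rfl
  · exfalso
    apply h2
    have hw : (0 : ℤ) < (w : ℤ) + 1 := by positivity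
    have h3 : k * ((w : ℤ) + 1) = -i := by
      push_cast at h1
      linarith
    have h4 : (i : ℤ) < w + 1 := by exact_mod_cast hi'
    have h5 : k ≤ 0 := by
      by_contra hk
      have : 0 < k * ((w : ℤ) + 1) := mul_pos (by omega) hw
      omega
    have h6 : -1 < k := by
      by_contra hk
      have : k * ((w : ℤ) + 1) ≤ (-1) * ((w : ℤ) + 1) :=
        mul_le_mul_of_nonneg_right (by omega) hw.le
      omega
    omega
  · exact zero_le_one
  · exact le_rfl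

/-- The largest luck of the starts in the cell `0`. -/
def VG (μ : Measure ℝ) (s : ℝ) (w n : ℕ) (η : Env) : ℝ :=
  (Finset.range (w + 1)).sup' ⟨0, by simp⟩ fun i => V μ s η (0, (i : ℤ)) n

theorem Sub_VG (w n : ℕ) : Sub fun η : Env => VG μ s w n η :=
  Sub.sup' _ _ fun _ _ => Sub_V _ _

theorem le_VG (w n : ℕ) (η : Env) {i : ℕ} (hi : i < w + 1) : V μ s η (0, (i : ℤ)) n ≤ VG μ s w n η :=
  Finset.le_sup' (f := fun i : ℕ => V μ s η (0, (i : ℤ)) n) (Finset.mem_range.2 hi)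

theorem Gc_le (w n : ℕ) (d k : ℤ) (η : Env) : Gc μ s w n d k η ≤ Real.exp (VG μ s w n η) := by
  classical
  refine Finset.sup'_le _ _ fun i hi => ?_
  have h1 : ∑ l ∈ Finset.range (w + 1), W μ s η (0, (i : ℤ)) n (d + k * (w + 1) + l - i) =
      WS μ s η (0, (i : ℤ)) n ((Finset.range (w + 1)).image fun l : ℕ =>
        d + k * (w + 1) + (l : ℤ) - i) := by
    unfold WS
    rw [Finset.sum_image]
    intro x _ y _ hxy
    have h2 : d + k * (w + 1) + (x : ℤ) - i = d + k * (w + 1) + (y : ℤ) - i := hxy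
    omega
  rw [h1]
  exact (WS_le_exp_V _ _ _ _).trans (Real.exp_le_exp.2 (le_VG w n η (Finset.mem_range.1 hi)))

theorem Zc_le (w n : ℕ) (d : ℤ) (M : ℕ) (k : ℤ) (η : Env) :
    Zc μ s w n d M k η ≤ Real.exp (VG μ s w (M * n) η) := by
  classical
  refine Finset.sup'_le _ _ fun i hi => ?_
  have h1 : W μ s η (0, (i : ℤ)) (M * n) (M * d - k * (w + 1) - i) =
      WS μ s η (0, (i : ℤ)) (M * n) {M * d - k * (w + 1) - i} := by
    unfold WS
    rw [Finset.sum_singleton]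
  rw [h1]
  exact (WS_le_exp_V _ _ _ _).trans (Real.exp_le_exp.2 (le_VG w (M * n) η (Finset.mem_range.1 hi)))

theorem rpow_sum_le' {κ : Type*} (S : Finset κ) (f : κ → ℝ) (hf : ∀ i ∈ S, 0 ≤ f i) {θ : ℝ}
    (h0 : 0 < θ) (h1 : θ ≤ 1) : (∑ i ∈ S, f i) ^ θ ≤ ∑ i ∈ S, f i ^ θ := by
  classical
  induction S using Finset.induction_on with
  | empty => simp [Real.zero_rpow h0.ne']
  | insert a S ha ih =>
    rw [Finset.sum_insert ha, Finset.sum_insert ha]
    have h2 := ih fun i hi => hf i (Finset.mem_insert_of_mem hi)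
    refine (Real.rpow_add_le_add_rpow (hf a (Finset.mem_insert_self a S))
      (Finset.sum_nonneg fun i hi => hf i (Finset.mem_insert_of_mem hi)) h0.le h1).trans ?_
    linarith

theorem rpow_le_exp {x y t : ℝ} (h0 : 0 ≤ x) (h : x ≤ Real.exp y) (ht : 0 ≤ t) :
    x ^ t ≤ Real.exp (t * y) := by
  have h1 := Real.rpow_le_rpow h0 h ht
  rwa [← Real.exp_mul, mul_comm] at h1

variable [IsProbabilityMeasure μ]

theorem integrable_Gc (hμ : Pool.Agent.W_7d29a1_h47.EM μ) (w n : ℕ) (d k : ℤ) {t : ℝ} (ht : 0 ≤ t) :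
    Integrable (fun η => Gc μ s w n d k η ^ t) (law μ) := by
  refine (((Sub_VG (μ := μ) (s := s) w n).const_mul t).exp_int hμ).mono'
    ((measurable_Gc w n d k).pow_const t).aestronglyMeasurable
    (Filter.Eventually.of_forall fun η => ?_)
  rw [Real.norm_eq_abs, abs_of_nonneg (Real.rpow_nonneg (Gc_nonneg _ _ _ _ _) _)]
  exact rpow_le_exp (Gc_nonneg _ _ _ _ _) (Gc_le _ _ _ _ _) ht

theorem integrable_Zc (hμ : Pool.Agent.W_7d29a1_h47.EM μ) (w n : ℕ) (d : ℤ) (M : ℕ) (k : ℤ) {t : ℝ}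
    (ht : 0 ≤ t) : Integrable (fun η => Zc μ s w n d M k η ^ t) (law μ) := by
  refine (((Sub_VG (μ := μ) (s := s) w (M * n)).const_mul t).exp_int hμ).mono'
    ((measurable_Zc w n d M k).pow_const t).aestronglyMeasurable
    (Filter.Eventually.of_forall fun η => ?_)
  rw [Real.norm_eq_abs, abs_of_nonneg (Real.rpow_nonneg (Zc_nonneg _ _ _ _ _ _) _)]
  exact rpow_le_exp (Zc_nonneg _ _ _ _ _ _) (Zc_le _ _ _ _ _ _) ht

theorem int_sh {f : Env → ℝ} (hf : Measurable f) (a : Pt) :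
    ∫ η, f (sh a η) ∂(law μ) = ∫ η, f η ∂(law μ) := by
  have h := mp_sh (μ := μ) a
  rw [← integral_map h.measurable.aemeasurable hf.aestronglyMeasurable, h.map_eq]

theorem int_Zc_succ (hμ : Pool.Agent.W_7d29a1_h47.EM μ) (w n : ℕ) (d : ℤ) (M : ℕ) (k : ℤ) {t : ℝ}
    (ht : 0 < t) (ht1 : t ≤ 1) {R : ℕ} (hR : |d| + n + w + 1 ≤ R) :
    ∫ η, Zc μ s w n d (M + 1) k η ^ t ∂(law μ) ≤ ∑ D ∈ Finset.Icc (-(R : ℤ)) R,
      (∫ η, Gc μ s w n d D η ^ t ∂(law μ)) * ∫ η, Zc μ s w n d M (k + D) η ^ t ∂(law μ) := by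
  have hmsh : ∀ a : Pt, Measurable fun η : Env => sh a η := fun a =>
    measurable_pi_lambda _ fun p => measurable_pi_apply (p + a)
  have hmZ : ∀ D : ℤ, Measurable fun η : Env =>
      Zc μ s w n d M (k + D) (sh ((n : ℤ), d + D * (w + 1)) η) ^ t := fun D =>
    ((measurable_Zc w n d M (k + D)).comp (hmsh _)).pow_const t
  have hmG : ∀ D : ℤ, Measurable fun η : Env => Gc μ s w n d D η ^ t := fun D =>
    (measurable_Gc w n d D).pow_const t
  have hint : ∀ D ∈ Finset.Icc (-(R : ℤ)) R, Integrable (fun η => Gc μ s w n d D η ^ t *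
      Zc μ s w n d M (k + D) (sh ((n : ℤ), d + D * (w + 1)) η) ^ t) (law μ) := by
    intro D _
    have hS : Sub fun η : Env => t * VG μ s w n η + t * VG μ s w (M * n)
        (sh ((n : ℤ), d + D * (w + 1)) η) :=
      ((Sub_VG w n).const_mul t).add
        (((Sub_VG (μ := μ) (s := s) w (M * n)).comp_sh ((n : ℤ), d + D * (w + 1))).const_mul t)
    refine (hS.exp_int hμ).mono' ((hmG D).mul (hmZ D)).aestronglyMeasurable
      (Filter.Eventually.of_forall fun η => ?_)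
    have h1 := rpow_le_exp (Gc_nonneg (μ := μ) (s := s) w n d D η) (Gc_le _ _ _ _ _) ht.le
    have h2 := rpow_le_exp (Zc_nonneg (μ := μ) (s := s) w n d M (k + D)
      (sh ((n : ℤ), d + D * (w + 1)) η)) (Zc_le _ _ _ _ _ _) ht.le
    have h3 := Real.rpow_nonneg (Gc_nonneg (μ := μ) (s := s) w n d D η) t
    have h4 := Real.rpow_nonneg (Zc_nonneg (μ := μ) (s := s) w n d M (k + D)
      (sh ((n : ℤ), d + D * (w + 1)) η)) t
    rw [Real.norm_eq_abs, abs_of_nonneg (mul_nonneg h3 h4), Real.exp_add]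
    exact mul_le_mul h1 h2 h4 (Real.exp_pos _).le
  have h1 : ∫ η, Zc μ s w n d (M + 1) k η ^ t ∂(law μ) ≤ ∫ η, ∑ D ∈ Finset.Icc (-(R : ℤ)) R,
      Gc μ s w n d D η ^ t * Zc μ s w n d M (k + D) (sh ((n : ℤ), d + D * (w + 1)) η) ^ t
      ∂(law μ) := by
    refine integral_mono (integrable_Zc hμ w n d (M + 1) k ht.le) (integrable_finsetSum _ hint)
      fun η => ?_
    refine (Real.rpow_le_rpow (Zc_nonneg _ _ _ _ _ _) (Zc_succ w n d M k η hR) ht.le).trans ?_
    refine (rpow_sum_le' _ _ (fun D _ => mul_nonneg (Gc_nonneg _ _ _ _ _) (Zc_nonneg _ _ _ _ _ _))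
      ht ht1).trans (le_of_eq ?_)
    exact Finset.sum_congr rfl fun D _ =>
      Real.mul_rpow (Gc_nonneg _ _ _ _ _) (Zc_nonneg _ _ _ _ _ _)
  refine h1.trans (le_of_eq ?_)
  rw [integral_finsetSum _ hint]
  refine Finset.sum_congr rfl fun D _ => ?_
  rw [integral_indep (A := rows 0 n) (B := rows n (n + M * n)) (hmG D) (hmZ D) ?_ ?_
    (rows_disj le_rfl)]
  · congr 1
    exact int_sh (μ := μ) ((measurable_Zc (μ := μ) (s := s) w n d M (k + D)).pow_const t) _
  · intro η η' h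
    show Gc μ s w n d D η ^ t = Gc μ s w n d D η' ^ t
    rw [show Gc μ s w n d D η = Gc μ s w n d D η' from Gc_dep w n d D h]
  · intro η η' h
    show Zc μ s w n d M (k + D) (sh ((n : ℤ), d + D * (w + 1)) η) ^ t =
      Zc μ s w n d M (k + D) (sh ((n : ℤ), d + D * (w + 1)) η') ^ t
    rw [show Zc μ s w n d M (k + D) (sh ((n : ℤ), d + D * (w + 1)) η) =
      Zc μ s w n d M (k + D) (sh ((n : ℤ), d + D * (w + 1)) η') from Zc_dep w n d M (k + D) ?_]
    intro p hp
    show η (p + ((n : ℤ), d + D * (w + 1))) = η' (p + ((n : ℤ), d + D * (w + 1)))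
    refine h _ ⟨?_, ?_⟩
    · have := hp.1
      simp only [Prod.fst_add]
      omega
    · have := hp.2
      simp only [Prod.fst_add]
      linarith

/-- THETA MOMENTS OVER CELL SEQUENCES. -/
theorem cell_sum (hμ : Pool.Agent.W_7d29a1_h47.EM μ) (w n : ℕ) (d : ℤ) {t : ℝ} (ht : 0 < t)
    (ht1 : t ≤ 1) {g : ℤ → ℝ} (hg : ∀ D, ∫ η, Gc μ s w n d D η ^ t ∂(law μ) ≤ g D) {σ κ : ℝ}
    (hκ : ∀ R : ℕ, ∑ D ∈ Finset.Icc (-(R : ℤ)) R, g D * Real.exp (σ * D) ≤ κ) :
    ∀ (M : ℕ) (k : ℤ), ∫ η, Zc μ s w n d M k η ^ t ∂(law μ) ≤ κ ^ M * Real.exp (σ * k) := by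
  have hg0 : ∀ D, 0 ≤ g D := fun D =>
    (integral_nonneg fun η => Real.rpow_nonneg (Gc_nonneg _ _ _ _ _) _).trans (hg D)
  have hκ0 : 0 ≤ κ := (Finset.sum_nonneg fun D _ => mul_nonneg (hg0 D) (Real.exp_pos _).le).trans
    (hκ 0)
  intro M
  induction M with
  | zero =>
    intro k
    have h1 : ∀ η : Env, Zc μ s w n d 0 k η ^ t ≤ Real.exp (σ * k) := by
      intro η
      have h2 := Zc_zero (μ := μ) (s := s) w n d k η
      split_ifs at h2 with h3
      · rw [h3]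
        simpa using Real.rpow_le_one (Zc_nonneg _ _ _ _ _ _) (h3 ▸ h2) ht.le
      · have h4 : Zc μ s w n d 0 k η = 0 := le_antisymm h2 (Zc_nonneg _ _ _ _ _ _)
        rw [h4, Real.zero_rpow ht.ne']
        exact (Real.exp_pos _).le
    refine (integral_mono (integrable_Zc hμ w n d 0 k ht.le) (integrable_const _) h1).trans ?_
    simp
  | succ M ih =>
    intro k
    obtain ⟨R, hR⟩ : ∃ R : ℕ, |d| + n + w + 1 ≤ R := ⟨(|d| + n + w + 1).toNat, Int.self_le_toNat _⟩
    refine (int_Zc_succ hμ w n d M k ht ht1 hR).trans ?_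
    have h1 : ∀ D ∈ Finset.Icc (-(R : ℤ)) R, (∫ η, Gc μ s w n d D η ^ t ∂(law μ)) *
        ∫ η, Zc μ s w n d M (k + D) η ^ t ∂(law μ) ≤
        κ ^ M * Real.exp (σ * k) * (g D * Real.exp (σ * D)) := by
      intro D _
      have h2 := ih (k + D)
      have h3 : (0 : ℝ) ≤ ∫ η, Zc μ s w n d M (k + D) η ^ t ∂(law μ) :=
        integral_nonneg fun η => Real.rpow_nonneg (Zc_nonneg _ _ _ _ _ _) _
      refine (mul_le_mul (hg D) h2 h3 (hg0 D)).trans (le_of_eq ?_)
      have h4 : Real.exp (σ * ((k + D : ℤ) : ℝ)) = Real.exp (σ * k) * Real.exp (σ * D) := by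
        rw [← Real.exp_add]
        congr 1
        push_cast
        ring
      rw [h4]
      ring
    refine (Finset.sum_le_sum h1).trans ?_
    rw [← Finset.mul_sum, pow_succ]
    have h5 := mul_le_mul_of_nonneg_left (hκ R)
      (mul_nonneg (pow_nonneg hκ0 M) (Real.exp_pos (σ * k)).le)
    refine h5.trans (le_of_eq ?_)
    ring

/-- The cost of the displacement `(M n, M d)`. -/
theorem cell_cost (hμ : Pool.Agent.W_7d29a1_h47.EM μ) (w n : ℕ) {d : ℤ} (hd0 : 0 ≤ d) (hd1 : d ≤ n)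
    {t : ℝ} (ht : 0 < t) (ht1 : t ≤ 1) {g : ℤ → ℝ}
    (hg : ∀ D, ∫ η, Gc μ s w n d D η ^ t ∂(law μ) ≤ g D) {σ κ : ℝ}
    (hκ : ∀ R : ℕ, ∑ D ∈ Finset.Icc (-(R : ℤ)) R, g D * Real.exp (σ * D) ≤ κ) (M : ℕ) :
    -(M * Real.log κ) ≤ t * e μ s (M * n) (M * d) := by
  have h0 : (0 : ℤ) ≤ M * d := mul_nonneg (by positivity) hd0
  have h1 : (M * d : ℤ) ≤ (M * n : ℕ) := by
    push_cast
    exact mul_le_mul_of_nonneg_left hd1 (by positivity)
  have hW : ∀ η : Env, W μ s η 0 (M * n) (M * d) ≤ Zc μ s w n d M 0 η := by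
    intro η
    have h2 := le_Zc (μ := μ) (s := s) w n d M 0 η (i := 0) (by omega)
    have h3 : (M * d - 0 * ((w : ℤ) + 1) - ((0 : ℕ) : ℤ)) = M * d := by
      push_cast
      ring
    rw [h3] at h2
    exact h2
  have h2 : Real.exp (-(t * e μ s (M * n) (M * d))) ≤ κ ^ M := by
    have hS : Sub fun η : Env => -(t * X μ s η 0 (M * n) (M * d)) :=
      ((Sub_X 0 h0 h1).const_mul t).neg
    have h3 := hS.exp_integral_le hμ
    have h4 : ∫ η, -(t * X μ s η 0 (M * n) (M * d)) ∂(law μ) = -(t * e μ s (M * n) (M * d)) := by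
      rw [integral_neg, integral_const_mul]
      rfl
    rw [h4] at h3
    refine h3.trans ?_
    have h5 := cell_sum (s := s) hμ w n d ht ht1 hg hκ M 0
    simp only [Int.cast_zero, mul_zero, Real.exp_zero, mul_one] at h5
    refine le_trans (integral_mono (hS.exp_int hμ) (integrable_Zc hμ w n d M 0 ht.le) fun η => ?_) h5
    have h6 : Real.exp (-(t * X μ s η 0 (M * n) (M * d))) = W μ s η 0 (M * n) (M * d) ^ t := by
      unfold X
      rw [Real.rpow_def_of_pos (W_pos η 0 h0 h1)]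
      congr 1
      ring
    show Real.exp (-(t * X μ s η 0 (M * n) (M * d))) ≤ _
    rw [h6]
    exact Real.rpow_le_rpow (W_nonneg _ _ _ _) (hW η) ht.le
  have h3 := Real.log_le_log (Real.exp_pos _) h2
  rw [Real.log_exp, Real.log_pow] at h3
  linarith

/-- CONCLUSION: `log (1 / κ) ≤ t c`, `c` the cost of the displacement `(n, d)` in the long run. -/
theorem cell_log (hμ : Pool.Agent.W_7d29a1_h47.EM μ) (w n : ℕ) {d : ℤ} (hd0 : 0 ≤ d) (hd1 : d ≤ n)
    {t : ℝ} (ht : 0 < t) (ht1 : t ≤ 1) {g : ℤ → ℝ}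
    (hg : ∀ D, ∫ η, Gc μ s w n d D η ^ t ∂(law μ) ≤ g D) {σ κ : ℝ}
    (hκ : ∀ R : ℕ, ∑ D ∈ Finset.Icc (-(R : ℤ)) R, g D * Real.exp (σ * D) ≤ κ) {c : ℝ}
    (hc : ∀ ε : ℝ, 0 < ε → ∃ M : ℕ, 1 ≤ M ∧ e μ s (M * n) (M * d) ≤ (c + ε) * M) :
    -Real.log κ ≤ t * c := by
  refine le_of_forall_pos_le_add fun ε hε => ?_
  obtain ⟨M, hM, h1⟩ := hc (ε / t) (by positivity)
  have h2 := cell_cost (s := s) hμ w n hd0 hd1 ht ht1 hg hκ M
  have hM0 : (0 : ℝ) < M := by exact_mod_cast hM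
  have h3 : t * e μ s (M * n) (M * d) ≤ (t * c + ε) * M := by
    refine (mul_le_mul_of_nonneg_left h1 ht.le).trans (le_of_eq ?_)
    field_simp
  have h4 : -(M * Real.log κ) ≤ (t * c + ε) * M := h2.trans h3
  have h5 : (-Real.log κ) * M ≤ (t * c + ε) * M := by linarith
  exact le_of_mul_le_mul_right h5 hM0

end

end Pool.Agent.W_7d29a1_h82g
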