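import Pool.Agent.W_7d29a1_h82g.CellSum

/-!
TRACK G, row 622, (C): connections of the cells to fixed sites. helper82.
-/

namespace Pool.Agent.W_7d29a1_h82g

open Pool.Agent.W_7d29a1_F MeasureTheory ProbabilityTheory Filter Topology

noncomputable section

variable {μ : Measure ℝ} {s : ℝ} [IsProbabilityMeasure μ]

theorem integrable_W_rpow (hμ : Pool.Agent.W_7d29a1_h47.EM μ) (a : Pt) (n : ℕ) (y : ℤ) {t : ℝ}
    (ht : 0 ≤ t) : Integrable (fun η => W μ s η a n y ^ t) (law μ) := by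
  have h := WS_rpow_integrable (s := s) hμ a n {y} ht
  have h1 : (fun η => W μ s η a n y ^ t) = fun η => WS μ s η a n {y} ^ t := by
    funext η
    unfold WS
    rw [Finset.sum_singleton]
  rw [h1]
  exact h

/-- Jensen: `exp (- t e) ≤ E W ^ t`. -/
theorem exp_le_int_W (hμ : Pool.Agent.W_7d29a1_h47.EM μ) (a : Pt) {n : ℕ} {y : ℤ} (h0 : 0 ≤ y)
    (h1 : y ≤ n) {t A : ℝ} (ht : 0 ≤ t) (hA : e μ s n y ≤ A) :
    Real.exp (-(t * A)) ≤ ∫ η, W μ s η a n y ^ t ∂(law μ) := by
  have hS : Sub fun η : Env => -(t * X μ s η a n y) := ((Sub_X a h0 h1).const_mul t).neg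
  have h3 := hS.exp_integral_le hμ
  have h4 : ∫ η, -(t * X μ s η a n y) ∂(law μ) = -(t * e μ s n y) := by
    rw [integral_neg, integral_const_mul, integral_X]
  rw [h4] at h3
  have h5 : Real.exp (-(t * A)) ≤ Real.exp (-(t * e μ s n y)) :=
    Real.exp_le_exp.2 (by nlinarith [mul_le_mul_of_nonneg_left hA ht])
  refine (h5.trans h3).trans (le_of_eq (integral_congr_ae (Filter.Eventually.of_forall fun η => ?_)))
  show Real.exp (-(t * X μ s η a n y)) = W μ s η a n y ^ t
  unfold X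
  rw [Real.rpow_def_of_pos (W_pos η a h0 h1)]
  congr 1
  ring

/-- Concavity of the power: `(∑ w x) ^ t ≥ F ^ t ∑ (w / F) x ^ t`, `F = ∑ w > 0`. -/
theorem jensen_rpow {ι : Type*} (I : Finset ι) (w x : ι → ℝ) (hw : ∀ i ∈ I, 0 ≤ w i)
    (hx : ∀ i ∈ I, 0 ≤ x i) (hF : 0 < ∑ i ∈ I, w i) {t : ℝ} (ht : 0 ≤ t) (ht1 : t ≤ 1) :
    (∑ i ∈ I, w i) ^ t * ∑ i ∈ I, w i / (∑ j ∈ I, w j) * x i ^ t ≤ (∑ i ∈ I, w i * x i) ^ t := by
  set F := ∑ j ∈ I, w j with hFdef
  have h1 : ∑ i ∈ I, w i / F = 1 := by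
    rw [← Finset.sum_div, ← hFdef, div_self hF.ne']
  have h2 := (Real.concaveOn_rpow ht ht1).le_map_sum (t := I) (w := fun i => w i / F) (p := x)
    (fun i hi => div_nonneg (hw i hi) hF.le) h1 (fun i hi => hx i hi)
  simp only [smul_eq_mul] at h2
  have h3 : ∑ i ∈ I, w i * x i = F * ∑ i ∈ I, w i / F * x i := by
    rw [Finset.mul_sum]
    refine Finset.sum_congr rfl fun i _ => ?_
    field_simp
  rw [h3, Real.mul_rpow hF.le (Finset.sum_nonneg fun i hi =>
    mul_nonneg (div_nonneg (hw i hi) hF.le) (hx i hi))]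
  exact mul_le_mul_of_nonneg_left h2 (Real.rpow_nonneg hF.le t)

omit [IsProbabilityMeasure μ] in
/-- The three pieces. -/
theorem three_le (w n r r' : ℕ) (d k x0 x1 : ℤ) (η : Env) (i : ℕ) :
    W μ s η (-(r : ℤ), x0) r (i - x0) * ∑ l ∈ Finset.range (w + 1),
      W μ s η (0, (i : ℤ)) n (d + k * (w + 1) + l - i) *
        W μ s η ((n : ℤ), d + k * (w + 1) + l) r' (x1 - (d + k * (w + 1) + l)) ≤
      W μ s η (-(r : ℤ), x0) (r + (n + r')) (x1 - x0) := by
  classical
  have h1 := W_mul_le (μ := μ) (s := s) η (-(r : ℤ), x0) r (n + r') (i - x0) (x1 - i)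
  have h2 : ((-(r : ℤ), x0) : Pt).1 + (r : ℤ) = 0 := by simp
  have h3 : ((-(r : ℤ), x0) : Pt).2 + ((i : ℤ) - x0) = i := by simp
  rw [h2, h3, show (i : ℤ) - x0 + (x1 - i) = x1 - x0 by ring] at h1
  refine (mul_le_mul_of_nonneg_left ?_ (W_nonneg _ _ _ _)).trans h1
  rw [W_add η (0, (i : ℤ)) n r' (x1 - i)]
  -- the ends of the cell are distinct displacements
  have h4 : ∀ l ∈ Finset.range (w + 1), W μ s η (0, (i : ℤ)) n (d + k * (w + 1) + l - i) *
      W μ s η ((n : ℤ), d + k * (w + 1) + l) r' (x1 - (d + k * (w + 1) + l)) =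
      (fun y : ℤ => W μ s η (0, (i : ℤ)) n y * W μ s η ((n : ℤ), (i : ℤ) + y) r' (x1 - i - y))
        (d + k * (w + 1) + l - i) := by
    intro l _
    show _ = W μ s η (0, (i : ℤ)) n (d + k * (w + 1) + l - i) * W μ s η ((n : ℤ), (i : ℤ) +
      (d + k * (w + 1) + l - i)) r' (x1 - i - (d + k * (w + 1) + l - i))
    rw [show (i : ℤ) + (d + k * (w + 1) + l - i) = d + k * (w + 1) + l by ring,
      show x1 - i - (d + k * (w + 1) + l - i) = x1 - (d + k * (w + 1) + l) by ring]
  rw [Finset.sum_congr rfl h4]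
  have hinj : Set.InjOn (fun l : ℕ => d + k * (w + 1) + (l : ℤ) - i) (Finset.range (w + 1)) := by
    intro x _ y _ hxy
    have h5 : d + k * (w + 1) + (x : ℤ) - i = d + k * (w + 1) + (y : ℤ) - i := hxy
    omega
  rw [← Finset.sum_image (f := fun y : ℤ => W μ s η (0, (i : ℤ)) n y *
    W μ s η ((n : ℤ), (i : ℤ) + y) r' (x1 - i - y)) (g := fun l : ℕ => d + k * (w + 1) + (l : ℤ) - i)
    hinj]
  have h6 : ∑ y ∈ (Finset.range (w + 1)).image (fun l : ℕ => d + k * (w + 1) + (l : ℤ) - i),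
      W μ s η (0, (i : ℤ)) n y * W μ s η ((n : ℤ), (i : ℤ) + y) r' (x1 - i - y) =
      ∑ y ∈ ((Finset.range (w + 1)).image (fun l : ℕ => d + k * (w + 1) + (l : ℤ) - i)).filter
        (fun y : ℤ => 0 ≤ y ∧ y ≤ (n : ℤ)), W μ s η (0, (i : ℤ)) n y *
          W μ s η ((n : ℤ), (i : ℤ) + y) r' (x1 - i - y) := by
    rw [Finset.sum_filter_of_ne]
    intro y _ hne
    by_contra hcon
    exact hne (by rw [W_eq_zero η (0, (i : ℤ)) hcon, zero_mul])
  rw [h6]
  have h7 : ∀ y : ℤ, W μ s η (0, (i : ℤ)) n y * W μ s η ((n : ℤ), (i : ℤ) + y) r' (x1 - i - y) =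
      W μ s η (0, (i : ℤ)) n y * W μ s η (((0 : ℤ), (i : ℤ)).1 + n, ((0 : ℤ), (i : ℤ)).2 + y) r'
        (x1 - i - y) := by
    intro y
    simp
  simp only [h7]
  refine Finset.sum_le_sum_of_subset_of_nonneg ?_ fun y _ _ =>
    mul_nonneg (W_nonneg _ _ _ _) (W_nonneg _ _ _ _)
  intro y hy
  exact Finset.mem_Icc.2 (Finset.mem_filter.1 hy).2

/-- CONNECTIONS. -/
theorem conn (hμ : Pool.Agent.W_7d29a1_h47.EM μ) (w n r r' : ℕ) (d k x0 x1 : ℤ) {t A : ℝ}
    (ht : 0 < t) (ht1 : t ≤ 1)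
    (h1 : ∀ i : ℕ, i ≤ w → 0 ≤ (i : ℤ) - x0 ∧ (i : ℤ) - x0 ≤ r ∧ e μ s r (i - x0) ≤ A)
    (h2 : ∀ l : ℕ, l ≤ w → 0 ≤ x1 - (d + k * (w + 1) + l) ∧ x1 - (d + k * (w + 1) + l) ≤ r' ∧
      e μ s r' (x1 - (d + k * (w + 1) + l)) ≤ A) :
    ∫ η, Gc μ s w n d k η ^ t ∂(law μ) ≤
      Real.exp (2 * t * A) * ∫ η, W μ s η (-(r : ℤ), x0) (r + (n + r')) (x1 - x0) ^ t ∂(law μ) := by
  classical
  set S : Set Pt := rows 0 n with hS
  have hmW : ∀ (a : Pt) (m : ℕ) (y : ℤ), Measurable fun η : Env => W μ s η a m y ^ t :=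
    fun a m y => (measurable_W a m y).pow_const t
  obtain ⟨e1, e2, e3⟩ := integral_glue (μ := μ) S (hmW (-(r : ℤ), x0) (r + (n + r')) (x1 - x0))
    (integrable_W_rpow hμ _ _ _ ht.le)
  have key : ∀ η : Env, Integrable (fun η' : Env => W μ s (fun p => if p ∈ S then η p else η' p)
      (-(r : ℤ), x0) (r + (n + r')) (x1 - x0) ^ t) (law μ) →
      Real.exp (-(2 * t * A)) * Gc μ s w n d k η ^ t ≤
        ∫ η', W μ s (fun p => if p ∈ S then η p else η' p) (-(r : ℤ), x0) (r + (n + r'))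
          (x1 - x0) ^ t ∂(law μ) := by
    intro η hint
    obtain ⟨i, hi, hGi⟩ := Finset.exists_mem_eq_sup' (s := Finset.range (w + 1)) ⟨0, by simp⟩
      (fun i : ℕ => ∑ l ∈ Finset.range (w + 1), W μ s η (0, (i : ℤ)) n (d + k * (w + 1) + l - i))
    have hi' : i ≤ w := by
      have := Finset.mem_range.1 hi
      omega
    have hG : Gc μ s w n d k η =
        ∑ l ∈ Finset.range (w + 1), W μ s η (0, (i : ℤ)) n (d + k * (w + 1) + l - i) := hGi
    set F := Gc μ s w n d k η with hF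
    rcases (Gc_nonneg (μ := μ) (s := s) w n d k η).eq_or_lt with h0 | h0
    · rw [hF, ← h0, Real.zero_rpow ht.ne', mul_zero]
      exact integral_nonneg fun η' => Real.rpow_nonneg (W_nonneg _ _ _ _) _
    have hFpos : 0 < F := h0
    -- pointwise
    have hpt : ∀ η' : Env, F ^ t * ∑ l ∈ Finset.range (w + 1),
        W μ s η (0, (i : ℤ)) n (d + k * (w + 1) + l - i) / F *
          (W μ s η' (-(r : ℤ), x0) r (i - x0) ^ t *
            W μ s η' ((n : ℤ), d + k * (w + 1) + l) r' (x1 - (d + k * (w + 1) + l)) ^ t) ≤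
        W μ s (fun p => if p ∈ S then η p else η' p) (-(r : ℤ), x0) (r + (n + r')) (x1 - x0) ^ t := by
      intro η'
      set ζ : Env := fun p => if p ∈ S then η p else η' p with hζ
      have g1 : W μ s ζ (-(r : ℤ), x0) r (i - x0) = W μ s η' (-(r : ℤ), x0) r (i - x0) := by
        refine W_dep_rows (μ := μ) (s := s) (-(r : ℤ), x0) r _ fun p hp => ?_
        have hp' : p ∉ S := by
          intro hpS
          have := hp.2
          have := hpS.1
          simp only at *
          omega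
        show (if p ∈ S then η p else η' p) = η' p
        rw [if_neg hp']
      have g2 : ∀ y : ℤ, W μ s ζ (0, (i : ℤ)) n y = W μ s η (0, (i : ℤ)) n y := by
        intro y
        refine W_dep_rows (μ := μ) (s := s) (0, (i : ℤ)) n _ fun p hp => ?_
        have hp' : p ∈ S := by
          rw [hS]
          simpa using hp
        show (if p ∈ S then η p else η' p) = η p
        rw [if_pos hp']
      have g3 : ∀ b y : ℤ, W μ s ζ ((n : ℤ), b) r' y = W μ s η' ((n : ℤ), b) r' y := by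
        intro b y
        refine W_dep_rows (μ := μ) (s := s) ((n : ℤ), b) r' _ fun p hp => ?_
        have hp' : p ∉ S := by
          intro hpS
          have := hp.1
          have := hpS.2
          simp only at *
          omega
        show (if p ∈ S then η p else η' p) = η' p
        rw [if_neg hp']
      have g4 := three_le (μ := μ) (s := s) w n r r' d k x0 x1 ζ i
      rw [g1] at g4
      simp only [g2, g3] at g4
      have g5 := jensen_rpow (Finset.range (w + 1))
        (fun l : ℕ => W μ s η (0, (i : ℤ)) n (d + k * (w + 1) + l - i))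
        (fun l : ℕ => W μ s η' ((n : ℤ), d + k * (w + 1) + l) r' (x1 - (d + k * (w + 1) + l)))
        (fun l _ => W_nonneg _ _ _ _) (fun l _ => W_nonneg _ _ _ _) (by rw [← hG]; exact hFpos)
        ht.le ht1
      rw [← hG] at g5
      have g6 := Real.rpow_le_rpow (mul_nonneg (W_nonneg _ _ _ _) (Finset.sum_nonneg fun l _ =>
        mul_nonneg (W_nonneg _ _ _ _) (W_nonneg _ _ _ _))) g4 ht.le
      rw [Real.mul_rpow (W_nonneg _ _ _ _) (Finset.sum_nonneg fun l _ =>
        mul_nonneg (W_nonneg _ _ _ _) (W_nonneg _ _ _ _))] at g6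
      refine le_trans (le_of_eq ?_) ((mul_le_mul_of_nonneg_left g5
        (Real.rpow_nonneg (W_nonneg (μ := μ) (s := s) η' (-(r : ℤ), x0) r (i - x0)) t)).trans g6)
      simp only [Finset.mul_sum]
      refine Finset.sum_congr rfl fun l _ => ?_
      ring
    -- the mean
    have hterm : ∀ l ∈ Finset.range (w + 1), Integrable (fun η' : Env =>
        W μ s η (0, (i : ℤ)) n (d + k * (w + 1) + l - i) / F *
          (W μ s η' (-(r : ℤ), x0) r (i - x0) ^ t *
            W μ s η' ((n : ℤ), d + k * (w + 1) + l) r' (x1 - (d + k * (w + 1) + l)) ^ t)) (law μ) := by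
      intro l _
      refine Integrable.const_mul ?_ _
      have hS2 : Sub fun η' : Env => t * V μ s η' (-(r : ℤ), x0) r +
          t * V μ s η' ((n : ℤ), d + k * (w + 1) + l) r' :=
        ((Sub_V _ _).const_mul t).add ((Sub_V _ _).const_mul t)
      refine (hS2.exp_int hμ).mono' ((hmW _ _ _).mul (hmW _ _ _)).aestronglyMeasurable
        (Filter.Eventually.of_forall fun η' => ?_)
      have hb : ∀ (a : Pt) (m : ℕ) (y : ℤ), W μ s η' a m y ^ t ≤ Real.exp (t * V μ s η' a m) := by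
        intro a m y
        have h := WS_rpow_le_exp (μ := μ) (s := s) η' a m {y} ht.le
        unfold WS at h
        rwa [Finset.sum_singleton] at h
      rw [Real.norm_eq_abs, abs_of_nonneg (mul_nonneg (Real.rpow_nonneg (W_nonneg _ _ _ _) _)
        (Real.rpow_nonneg (W_nonneg _ _ _ _) _)), Real.exp_add]
      exact mul_le_mul (hb _ _ _) (hb _ _ _) (Real.rpow_nonneg (W_nonneg _ _ _ _) _)
        (Real.exp_pos _).le
    refine le_trans ?_ (integral_mono ((integrable_finsetSum _ hterm).const_mul (F ^ t)) hint hpt)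
    rw [integral_const_mul, integral_finsetSum _ hterm, mul_comm (Real.exp _) (F ^ t)]
    refine mul_le_mul_of_nonneg_left ?_ (Real.rpow_nonneg hFpos.le t)
    have hone : ∑ l ∈ Finset.range (w + 1), W μ s η (0, (i : ℤ)) n (d + k * (w + 1) + l - i) / F =
        1 := by
      rw [← Finset.sum_div, ← hG, div_self hFpos.ne']
    calc Real.exp (-(2 * t * A)) = ∑ l ∈ Finset.range (w + 1),
          W μ s η (0, (i : ℤ)) n (d + k * (w + 1) + l - i) / F * Real.exp (-(2 * t * A)) := by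
            rw [← Finset.sum_mul, hone, one_mul]
      _ ≤ _ := by
        refine Finset.sum_le_sum fun l hl => ?_
        rw [integral_const_mul]
        refine mul_le_mul_of_nonneg_left ?_ (div_nonneg (W_nonneg _ _ _ _) hFpos.le)
        have hl' : l ≤ w := by
          have := Finset.mem_range.1 hl
          omega
        rw [integral_indep (A := rows (-(r : ℤ)) 0) (B := rows n (n + r')) (hmW _ _ _) (hmW _ _ _)
          ?_ ?_ ?_]
        · have q1 := exp_le_int_W (s := s) hμ (-(r : ℤ), x0) (h1 i hi').1 (h1 i hi').2.1 ht.le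
            (h1 i hi').2.2
          have q2 := exp_le_int_W (s := s) hμ ((n : ℤ), d + k * (w + 1) + l) (h2 l hl').1
            (h2 l hl').2.1 ht.le (h2 l hl').2.2
          refine le_trans (le_of_eq ?_) (mul_le_mul q1 q2 (Real.exp_pos _).le
            (integral_nonneg fun η' => Real.rpow_nonneg (W_nonneg _ _ _ _) _))
          rw [← Real.exp_add]
          congr 1
          ring
        · intro ξ ξ' h
          show W μ s ξ (-(r : ℤ), x0) r (i - x0) ^ t = W μ s ξ' (-(r : ℤ), x0) r (i - x0) ^ t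
          rw [show W μ s ξ (-(r : ℤ), x0) r (i - x0) = W μ s ξ' (-(r : ℤ), x0) r (i - x0) from
            W_dep_rows (μ := μ) (s := s) (-(r : ℤ), x0) r _ fun p hp => h p (by simpa using hp)]
        · intro ξ ξ' h
          show W μ s ξ ((n : ℤ), d + k * (w + 1) + l) r' (x1 - (d + k * (w + 1) + l)) ^ t =
            W μ s ξ' ((n : ℤ), d + k * (w + 1) + l) r' (x1 - (d + k * (w + 1) + l)) ^ t
          rw [show W μ s ξ ((n : ℤ), d + k * (w + 1) + l) r' (x1 - (d + k * (w + 1) + l)) =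
            W μ s ξ' ((n : ℤ), d + k * (w + 1) + l) r' (x1 - (d + k * (w + 1) + l)) from
            W_dep_rows (μ := μ) (s := s) ((n : ℤ), d + k * (w + 1) + l) r' _ fun p hp => h p hp]
        · exact rows_disj (by positivity)
  have h3 : Real.exp (-(2 * t * A)) * ∫ η, Gc μ s w n d k η ^ t ∂(law μ) ≤
      ∫ η, W μ s η (-(r : ℤ), x0) (r + (n + r')) (x1 - x0) ^ t ∂(law μ) := by
    rw [e1, ← integral_const_mul]
    refine integral_mono_ae ((integrable_Gc hμ w n d k ht.le).const_mul _) e2 ?_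
    filter_upwards [e3] with η hη
    exact key η hη
  have h4 := mul_le_mul_of_nonneg_left h3 (Real.exp_pos (2 * t * A)).le
  rw [← mul_assoc, ← Real.exp_add, show 2 * t * A + -(2 * t * A) = 0 by ring, Real.exp_zero,
    one_mul] at h4
  exact h4

end

end Pool.Agent.W_7d29a1_h82g
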